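import Pool.Agent.Results.MP_6e2fc3_nt.CMFormsEvenWeights
import Pool.Agent.Results.MP_787500_nt.InfiniteTowersX49

/-!
# The Selmer groups over the imaginary quadratic fields `ℚ(√(-7 d))`
-/

set_option autoImplicit false

open scoped Classical

namespace Pool.Agent.U80.IQ

open Pool.Agent.Results.MP_787500_nt.AllWeightsMultiquadraticX49
open Pool.Agent.Results.MP_6e2fc3_nt.CMFormsAllWeights
open Pool.Agent.Results.MP_6e2fc3_nt.CMFormsEvenWeights
open Pool.Agent.Hev384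
open Pool.Agent.R384 (rs rs_apply rs_cont)
open Pool.Agent.Kdt384

section

variable {w : QBar} (hw : w ^ 2 = w - 2) {c₀ : GQ} (hc₀ : c₀ w = 1 - w) {n : ℕ} {s : Fin n → QBar}

include hw hc₀ in
/-- the first component decides -/
theorem fst_triv' (hτ0 : ∃ τ ∈ GF s, τ w = 1 - w) {χ : Chr w}
    {b : GQ → ℚ_[2] × ℚ_[2]} (hb : IsCocycleF s χ c₀ b)
    (h1 : fstL w b ∈ Pool.Agent.R384.CobM χ (Pool.Agent.R384.fixs s Finset.univ)) :
    TrivialOnF s χ c₀ Set.univ b := by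
  rw [← galL_eq] at h1
  obtain ⟨y₁, hy₁⟩ := h1
  have hy1 : ∀ σ ∈ GF s, σ w = w → (b σ).1 = (val χ σ - 1) * y₁ := by
    intro σ hσ hσw
    have h1 : up w σ ∈ GalL w s := by
      rw [mem_GalL]
      intro i
      rw [up_apply hσw]
      exact mem_GF.1 hσ i
    have h2 : (b (rs w (up w σ))).1 = (qv χ (up w σ) - 1) * y₁ := hy₁ _ trivial h1
    rwa [rs_up hσw] at h2
  obtain ⟨τ, hτ, hτw⟩ := hτ0
  have hτw' : ¬ τ w = w := by rw [hτw]; exact (w_ne hw).symm
  set u : ℚ_[2] × ℚ_[2] := (y₁, 0) with hu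
  set b' : GQ → ℚ_[2] × ℚ_[2] := fun σ => b σ - (ind χ c₀ σ u - u) with hb'
  have hlin : ∀ (σ : GQ) (u v : ℚ_[2] × ℚ_[2]), ind χ c₀ σ (u - v) = ind χ c₀ σ u - ind χ c₀ σ v := by
    intro σ u v
    unfold ind
    split_ifs
    · ext <;> simp only [Prod.fst_sub, Prod.snd_sub] <;> ring
    · ext <;> simp only [Prod.fst_sub, Prod.snd_sub] <;> ring
  have hmul : ∀ σ ∈ GF s, ∀ τ ∈ GF s, b' (σ * τ) = b' σ + ind χ c₀ σ (b' τ) := by
    intro σ hσ τ hτ
    simp only [hb']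
    rw [hb.mul σ hσ τ hτ, ind_mul hw hc₀, hlin, hlin]
    abel
  have hfst : ∀ σ ∈ GF s, σ w = w → (b' σ).1 = 0 := by
    intro σ hσ hσw
    simp only [hb']
    rw [Prod.fst_sub, Prod.fst_sub, hy1 σ hσ hσw]
    unfold ind
    rw [if_pos hσw]
    simp only [hu]
    ring
  have hsnd : ∀ σ ∈ GF s, σ w = w → (b' σ).2 = (1 - val χ (c₀ * σ * c₀⁻¹)) * (b' τ).2 := by
    intro σ hσ hσw
    have h1 := hmul σ hσ τ hτ
    have h2 : τ⁻¹ * σ * τ ∈ GF s := (GF s).mul_mem ((GF s).mul_mem ((GF s).inv_mem hτ) hσ) hτ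
    have h3 := hmul τ hτ _ h2
    rw [show τ * (τ⁻¹ * σ * τ) = σ * τ by group, h1] at h3
    have h4 : (τ⁻¹ * σ * τ) w = w := conj_w' hτw hσw
    have h5 := congrArg Prod.snd h3
    rw [Prod.snd_add, Prod.snd_add] at h5
    have h6 : (ind χ c₀ σ (b' τ)).2 = val χ (c₀ * σ * c₀⁻¹) * (b' τ).2 := by
      unfold ind
      rw [if_pos hσw]
    have h7 : (ind χ c₀ τ (b' (τ⁻¹ * σ * τ))).2 = 0 := by
      unfold ind
      rw [if_neg hτw']
      show val χ (c₀ * τ) * (b' (τ⁻¹ * σ * τ)).1 = 0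
      rw [hfst _ h2 h4, mul_zero]
    rw [h6, h7] at h5
    linear_combination h5
  refine triv_of_fix hw hc₀ hb (y := (y₁, -(b' τ).2)) fun σ hσ hσw => ?_
  have h1 := hfst σ hσ hσw
  have h2 := hsnd σ hσ hσw
  have e : ind χ c₀ σ (y₁, -(b' τ).2) = (val χ σ * y₁, val χ (c₀ * σ * c₀⁻¹) * -(b' τ).2) := by
    unfold ind
    rw [if_pos hσw]
  have e2 : ind χ c₀ σ u = (val χ σ * y₁, val χ (c₀ * σ * c₀⁻¹) * 0) := by
    unfold ind
    rw [if_pos hσw]
  rw [e]
  ext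
  · rw [Prod.fst_sub]
    show _ = val χ σ * y₁ - y₁
    rw [hy1 σ hσ hσw]
    ring
  · rw [Prod.snd_sub]
    show (b σ).2 = val χ (c₀ * σ * c₀⁻¹) * -(b' τ).2 - -(b' τ).2
    have h3 : (b' σ).2 = (b σ).2 - ((ind χ c₀ σ u).2 - u.2) := rfl
    rw [e2] at h3
    simp only [hu] at h3
    linear_combination h2 - h3

end

section

variable {w : QBar} (hw : w ^ 2 = w - 2)

include hw in
lemma root_sq : (2 * w - 1) ^ 2 = (-7 : QBar) := by linear_combination 4 * hw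

include hw in
lemma root_ne : (2 * w - 1 : QBar) ≠ 0 := by
  intro h
  have h1 := root_sq hw
  rw [h] at h1
  norm_num at h1

/-- the quotient by the square root of `-7` -/
noncomputable def qt (w : QBar) (s : Fin 1 → QBar) : Fin 1 → QBar := fun i => s i / (2 * w - 1)

include hw in
lemma qt_sq {d : ℕ} {s : Fin 1 → QBar} (hs : ∀ i, s i ^ 2 = -7 * (d : QBar)) (i : Fin 1) :
    qt w s i ^ 2 = (d : QBar) := by
  unfold qt
  rw [div_pow, hs, root_sq hw]
  norm_num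

include hw in
lemma galL_qt (s : Fin 1 → QBar) : GalL w s = GalL w (qt w s) := by
  ext σ
  rw [mem_GalL, mem_GalL]
  have hσ : σ w = w := rs_w σ
  have h2 : σ (2 * w - 1) = 2 * w - 1 := by
    rw [map_sub, map_mul, map_ofNat, map_one, hσ]
  refine forall_congr' fun i => ?_
  unfold qt
  rw [map_div₀, h2, div_left_inj' (root_ne hw)]

include hw in
/-- an automorphism which fixes `√(-7 d)` and moves `√-7` -/
theorem exists_tau {d : ℕ} (hd : ¬ IsSquare d) {s : Fin 1 → QBar}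
    (hs : ∀ i, s i ^ 2 = -7 * (d : QBar)) : ∃ τ ∈ GF s, τ w = 1 - w := by
  have ht := qt_sq hw hs
  obtain ⟨τ₁, h1, h2⟩ := exists_real hw (s := qt w s) (d := fun _ => d) ht
  have hr := root_ne hw
  have hst : ∀ i, s i = (2 * w - 1) * qt w s i := by
    intro i
    unfold qt
    field_simp
  by_contra hno
  push Not at hno
  have hfixw : ∀ σ : GQ, σ (s 0) = s 0 → σ w = w := by
    intro σ hσ
    refine (or_w hw σ).resolve_right (hno σ (mem_GF.2 fun i => ?_))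
    rw [Subsingleton.elim i 0]
    exact hσ
  have h1' : τ₁ (qt w s 0) = qt w s 0 := mem_GF.1 h1 0
  have h3 : τ₁ (s 0) = -(s 0) := by
    rw [hst 0, map_mul, h1', map_sub, map_mul, map_ofNat, map_one, h2]
    ring
  have hall : ∀ σ : GQ, σ (qt w s 0) = qt w s 0 := by
    intro σ
    have hsq : (σ (s 0)) ^ 2 = (s 0) ^ 2 := by
      rw [← map_pow, hs, map_mul, map_neg, map_ofNat, map_natCast]
    have hq : ∀ ε : QBar, σ (s 0) = ε * s 0 → σ (2 * w - 1) = ε * (2 * w - 1) → ε ≠ 0 →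
        σ (qt w s 0) = qt w s 0 := by
      intro ε e1 e2 e3
      show σ (s 0 / (2 * w - 1)) = s 0 / (2 * w - 1)
      rw [map_div₀, e1, e2, mul_div_mul_left _ _ e3]
    rcases sq_eq_sq_iff_eq_or_eq_neg.1 hsq with h | h
    · refine hq 1 (by rw [h, one_mul]) ?_ one_ne_zero
      rw [one_mul, map_sub, map_mul, map_ofNat, map_one, hfixw σ h]
    · have h4 : (τ₁ * σ) (s 0) = s 0 := by
        rw [AlgEquiv.mul_apply, h, map_neg, h3, neg_neg]
      have h5 := hfixw _ h4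
      rw [AlgEquiv.mul_apply] at h5
      have h6 : σ w = 1 - w := by
        refine (or_w hw σ).resolve_left fun h7 => ?_
        rw [h7, h2] at h5
        exact w_ne hw h5.symm
      refine hq (-1) (by rw [h]; ring) ?_ (by norm_num)
      rw [map_sub, map_mul, map_ofNat, map_one, h6]
      ring
  have hmem := (InfiniteGalois.mem_bot_iff_fixed (k := ℚ) (K := QBar) (qt w s 0)).2 hall
  obtain ⟨c, hc⟩ := IntermediateField.mem_bot.1 hmem
  have h5 : (algebraMap ℚ QBar (c ^ 2)) = algebraMap ℚ QBar (d : ℚ) := by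
    rw [map_pow, hc, ht 0, map_natCast]
  have h6 : c ^ 2 = (d : ℚ) := (algebraMap ℚ QBar).injective h5
  apply hd
  rw [← Rat.isSquare_natCast_iff]
  exact ⟨c, by rw [← h6, sq]⟩

variable {c₀ : GQ} (hc₀ : c₀ w = 1 - w)

include hw hc₀ in
/-- the dimension -/
theorem dim7 {M d : ℕ} (hG : Good M (fun _ : Fin 1 => d)) (hd : ¬ IsSquare d) {κ κ' : Chr w}
    {r I : QBar} (kd : Pool.Agent.R384.KD hw κ κ' (tw M) r I) {s : Fin 1 → QBar}
    (hs : ∀ i, s i ^ 2 = -7 * (d : QBar)) (k : ℤ) :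
    dimF s (chi κ κ' k) c₀ ≤ (if Even k then ((2 ^ 1 : ℕ) : Cardinal) else 0) := by
  obtain ⟨h1, -⟩ := rk_all_weights hw hG kd (qt_sq hw hs) k
  have hfix : Pool.Agent.R384.fixs (qt w s) Finset.univ =
      (Pool.Agent.R384.fixs s Finset.univ : Subgroup (Gal w)) := by
    rw [← galL_eq, ← galL_eq]
    exact (galL_qt hw s).symm
  rw [hfix] at h1
  have key : ∀ b ∈ SelF s (chi κ κ' k) c₀, fstL w b ∈ Pool.Agent.R384.CobM (chi κ κ' k)
      (Pool.Agent.R384.fixs s Finset.univ) → b ∈ CobF s (chi κ κ' k) c₀ := by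
    rintro b ⟨hb, -⟩ h
    exact fst_triv' hw hc₀ (exists_tau hw hd hs) hb h
  exact (rank_into (fstL w) (fun b hb => fst_sel hw hb) key).trans h1

end

/-- dimension zero -/
lemma zero_of_dim {w : QBar} (hw : w ^ 2 = w - 2) {c₀ : GQ} (hc₀ : c₀ w = 1 - w) {n : ℕ}
    {s : Fin n → QBar} {χ : Chr w} (h : dimF s χ c₀ ≤ 0) : Zero s χ c₀ := by
  refine ⟨ind_mul hw hc₀, fun b hb hsel => ?_⟩
  have h0 : Module.rank ℚ_[2] (SelF s χ c₀ ⧸ (CobF s χ c₀).submoduleOf (SelF s χ c₀)) = 0 :=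
    le_antisymm h bot_le
  rw [rank_zero_iff] at h0
  have h1 : Submodule.Quotient.mk (p := (CobF s χ c₀).submoduleOf (SelF s χ c₀))
      (⟨b, hb, hsel⟩ : SelF s χ c₀) = 0 := Subsingleton.elim _ _
  rw [Submodule.Quotient.mk_eq_zero] at h1
  exact h1

/-- The curve `E_M` is over `K` isomorphic to the elliptic curve `ED w (tw M)`, the absolute Galois
group of `K` acts on its `2`-adic Tate module by `κ`, `κ'`, and for `F = ℚ(√(-7 d))` and the
representation `V` of the form of weight `2k`, that is, the one induced from `κ^k κ'^(1-k)`, the group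
`H¹_f(F, V)` is zero for all odd `k > 0` and of dimension at most `2` for all even `k > 0`. -/
def Forms (M d : ℕ) : Prop := ∀ w : QBar, w ^ 2 = w - 2 →
  Iso (EK w M) (ED w (tw M)) ∧ (ED w (tw M)).IsElliptic ∧
  ∃ κ κ' : Chr w, TateModule (tw M) κ κ' ∧
    ∀ s : Fin 1 → QBar, (∀ i, s i ^ 2 = -7 * (d : QBar)) → ∀ c₀ : GQ, c₀ w = 1 - w →
      ∀ k : ℤ, 0 < k → (Odd k → Zero s (chi κ κ' k) c₀) ∧ (Even k → AtMost s (chi κ κ' k) c₀)

theorem forms7 {M d : ℕ} (hG : Good M (fun _ : Fin 1 => d)) (hd : ¬ IsSquare d) : Forms M d := by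
  intro w hw
  obtain ⟨hM0, -⟩ := good_ne hG
  obtain ⟨κ, κ', ht, r, I, kd⟩ := exists_tate hw hM0
  refine ⟨tw_iso hw M, elliptic (tw_ne hM0) hw, κ, κ', ht, fun s hs c₀ hc₀ k _ => ⟨fun hk => ?_,
    fun hk => ⟨ind_mul hw hc₀, ?_⟩⟩⟩
  · have h := dim7 hw hc₀ hG hd kd hs k
    rw [if_neg (Int.not_even_iff_odd.2 hk)] at h
    exact zero_of_dim hw hc₀ h
  · have h := dim7 hw hc₀ hG hd kd hs k
    rw [if_pos hk] at h
    exact h

end Pool.Agent.U80.IQ
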